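import Pool.Agent.Helper79.GL4.Asm7

/-!
# MP_27a5f8_al: four characters marking the subgroups of `GL_n(q)` not containing `SL_n(q)`

For every `n ≥ 2` and every finite field `F` there are at most four nontrivial irreducible complex
characters of `GL_n(F)` such that every subgroup `K` of `GL_n(F)` not containing `SL_n(F)` is
marked by one of them: the restriction of that character to `K` contains the trivial character
of `K`.
-/

namespace Pool.Agent.Results.MP_27a5f8_al.FourCharacters

open scoped ComplexOrder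
open Matrix

/-- `χ` is the character of an irreducible finite-dimensional complex representation of `G`. -/
def IsIrrChar {G : Type} [Group G] (χ : G → ℂ) : Prop :=
  ∃ (V : Type) (_ : AddCommGroup V) (_ : Module ℂ V) (_ : FiniteDimensional ℂ V)
    (ρ : Representation ℂ G V), ρ.IsIrreducible ∧ χ = ρ.character

/-- The inner product `⟨f₁, f₂⟩_K = (1/|K|) ∑_{g ∈ K} f₁(g) conj (f₂(g))` (the group `K` is finite
in all uses, so `∑ᶠ` is the usual sum). -/
noncomputable def ip {G : Type} [Group G] (K : Subgroup G) (f₁ f₂ : G → ℂ) : ℂ :=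
  (Nat.card K : ℂ)⁻¹ * ∑ᶠ g : K, f₁ (g : G) * (starRingEnd ℂ) (f₂ (g : G))

/-- The set `X` of characters of `G` marks the subgroup `K`: some `χ ∈ X` has
`⟨χ|_K, 1_K⟩_K > 0`. (On `ℂ`, `0 < z` means that `z` is real and positive.) -/
def Marks {G : Type} [Group G] (X : Finset (G → ℂ)) (K : Subgroup G) : Prop :=
  ∃ χ ∈ X, 0 < ip K χ 1

/-- `SL_n(F)` as a subgroup of `GL_n(F)`: the kernel of the determinant. -/
def SL (n : ℕ) (F : Type) [Field F] : Subgroup (GL (Fin n) F) :=
  (Matrix.GeneralLinearGroup.det (n := Fin n) (R := F)).ker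

/-- The isomorphism of `GL_n(F)` with the group of linear automorphisms of `F^n`. -/
noncomputable def iso (n : ℕ) (F : Type) [Field F] :
    GL (Fin n) F ≃* ((Fin n → F) ≃ₗ[F] (Fin n → F)) :=
  Matrix.GeneralLinearGroup.toLin.trans
    (LinearMap.GeneralLinearGroup.generalLinearEquiv F (Fin n → F))

theorem iso_coe (n : ℕ) (F : Type) [Field F] (g : GL (Fin n) F) :
    ((iso n F g : (Fin n → F) ≃ₗ[F] (Fin n → F)) : (Fin n → F) →ₗ[F] (Fin n → F)) =
      Matrix.toLin' (g : Matrix (Fin n) (Fin n) F) := by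
  apply LinearMap.ext
  intro v
  rfl

theorem isIrrChar_comp {G G' : Type} [Group G] [Group G'] (e : G ≃* G') {χ : G' → ℂ}
    (h : GL4.IsIrr χ) : IsIrrChar (χ ∘ e) := by
  obtain ⟨V, i1, i2, i3, ρ, hρ, rfl⟩ := h
  refine ⟨V, i1, i2, i3, ρ.comp e.toMonoidHom, ?_, rfl⟩
  have o : Subrepresentation (ρ.comp e.toMonoidHom) ≃o Subrepresentation ρ :=
    { toFun := fun s => ⟨s.toSubmodule, fun g v hv => by
        have := s.apply_mem_toSubmodule (e.symm g) hv
        simpa using this⟩
      invFun := fun s => ⟨s.toSubmodule, fun g v hv => s.apply_mem_toSubmodule (e g) hv⟩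
      left_inv := fun s => rfl
      right_inv := fun s => rfl
      map_rel_iff' := Iff.rfl }
  exact (OrderIso.isSimpleOrder_iff o).2 hρ

theorem ip_comp {G G' : Type} [Group G] [Group G'] (e : G ≃* G') (K : Subgroup G)
    (χ : G' → ℂ) : ip K (χ ∘ e) 1 = GL4.ip (K.map e.toMonoidHom) χ 1 := by
  have f := K.equivMapOfInjective e.toMonoidHom e.injective
  rw [ip, GL4.ip, Nat.card_congr f.toEquiv]
  congr 1
  exact finsum_eq_of_bijective (K.equivMapOfInjective e.toMonoidHom e.injective)
    (K.equivMapOfInjective e.toMonoidHom e.injective).bijective (fun x => rfl)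

/-- **Q1 of MP_27a5f8_al.** For every `n ≥ 2` and every finite field `F`, there is a set of at most
four nontrivial irreducible complex characters of `GL_n(F)` that marks every subgroup of `GL_n(F)`
not containing `SL_n(F)`. -/
theorem result (n : ℕ) (hn : 2 ≤ n) (F : Type) [Field F] [Finite F] :
    ∃ X : Finset (GL (Fin n) F → ℂ), X.card ≤ 4 ∧
      (∀ χ ∈ X, IsIrrChar χ ∧ χ ≠ 1) ∧
      ∀ K : Subgroup (GL (Fin n) F), ¬ SL n F ≤ K → Marks X K := by
  obtain ⟨X, hfin, hcard, hirr, hmark⟩ :=
    GL4.Fin79.good F (Fin n → F) (by rw [Module.finrank_fin_fun]; exact hn)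
  have hf : ((fun χ => χ ∘ iso n F) '' X).Finite := hfin.image _
  refine ⟨hf.toFinset, ?_, ?_, ?_⟩
  · rw [← Set.ncard_eq_toFinset_card _ hf]
    exact (Set.ncard_image_le hfin).trans hcard
  · intro ψ hψ
    obtain ⟨χ, hχ, rfl⟩ := hf.mem_toFinset.1 hψ
    refine ⟨isIrrChar_comp (iso n F) (hirr χ hχ).1, fun he => (hirr χ hχ).2 ?_⟩
    funext g
    have := congrFun he ((iso n F).symm g)
    simpa using this
  · intro K hK
    by_contra hcon
    apply hK
    have hSL : GL4.HasSL (K.map (iso n F).toMonoidHom) := by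
      apply hmark
      intro χ hχ hm
      exact hcon ⟨χ ∘ iso n F, hf.mem_toFinset.2 ⟨χ, hχ, rfl⟩, by rw [ip_comp]; exact hm⟩
    intro g hg
    have h1 : LinearMap.det ((iso n F g : (Fin n → F) ≃ₗ[F] (Fin n → F)) :
        (Fin n → F) →ₗ[F] (Fin n → F)) = 1 := by
      rw [iso_coe, LinearMap.det_toLin']
      have h2 : Matrix.GeneralLinearGroup.det g = 1 := hg
      have h3 := congrArg Units.val h2
      simpa using h3
    obtain ⟨k, hk, hkg⟩ := hSL _ h1
    have : k = g := (iso n F).injective hkg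
    rw [← this]
    exact hk

end Pool.Agent.Results.MP_27a5f8_al.FourCharacters
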